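import Pool.Agent.T6.H92.TG.Out2

/-!
The law of the area of square-lattice self-avoiding polygons: smoothness of all orders in the
perimeter.
-/

set_option autoImplicit false

namespace Pool.Agent.Results.MP_f6626d_co.AllOrderSmoothness

/-- a closed nearest-neighbour loop on `ℤ²` with `m` steps, rooted at the origin and oriented,
that visits no vertex twice -/
def IsLoop (m : ℕ) (f : ZMod m → ℤ × ℤ) : Prop :=
  f 0 = 0 ∧ Function.Injective f ∧
    ∀ i : ZMod m, |(f (i + 1)).1 - (f i).1| + |(f (i + 1)).2 - (f i).2| = 1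

/-- the edge from `f k` to `f (k+1)` is horizontal, joins the columns `x = a` and `x = a + 1`, and
has height larger than `b`: it lies above the unit cell `[a, a+1] × [b, b+1]` -/
def Above (m : ℕ) (f : ZMod m → ℤ × ℤ) (a b : ℤ) (k : ZMod m) : Prop :=
  (((f k).1 = a ∧ (f (k + 1)).1 = a + 1) ∨ ((f k).1 = a + 1 ∧ (f (k + 1)).1 = a)) ∧ b < (f k).2

/-- the unit cell `[a, a+1] × [b, b+1]` is enclosed by the loop: the vertical ray from the cell
upwards crosses an odd number of edges -/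
def Encl (m : ℕ) (f : ZMod m → ℤ × ℤ) (c : ℤ × ℤ) : Prop :=
  Odd (Nat.card {k : ZMod m // Above m f c.1 c.2 k})

/-- the area: the number of unit cells enclosed by the loop -/
noncomputable def area (m : ℕ) (f : ZMod m → ℤ × ℤ) : ℕ := Nat.card {c : ℤ × ℤ // Encl m f c}

/-- the expectation of `F (A_n)`, where `A_n` is the area of a uniform self-avoiding polygon of
perimeter `2 n`: the average of `F (area)` over the rooted oriented polygons. -/
noncomputable def E (F : ℝ → ℝ) (n : ℕ) : ℝ :=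
  (∑ᶠ f ∈ {f : ZMod (2 * n) → ℤ × ℤ | IsLoop (2 * n) f}, F (area (2 * n) f)) /
    ({f : ZMod (2 * n) → ℤ × ℤ | IsLoop (2 * n) f}.ncard : ℝ)

/-- the `r`-th moment of the normalised area `A_n / E[A_n]` -/
noncomputable def m (r n : ℕ) : ℝ := E (fun x => x ^ r) n / E (fun x => x) n ^ r

/-- the iterated forward differences `Δ^k u (n)`, where `Δ u (n) = u (n + 1) - u n` -/
def diff : ℕ → (ℕ → ℝ) → ℕ → ℝ
  | 0, u, n => u n
  | k + 1, u, n => diff k u (n + 1) - diff k u n

theorem diff_eq (k : ℕ) (u : ℕ → ℝ) : ∀ n, diff k u n = Pool.Agent.T6.H92.TG.D k u n := by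
  induction k with
  | zero => intro n; rfl
  | succ k ih =>
    intro n
    show diff k u (n + 1) - diff k u n = _
    rw [ih, ih]
    rfl

/-- **Theorem.** The law of the area is smooth of all orders in `n`, tested against powers and
against smooth functions.
(1) For all `r` and `k` there is a constant `C` with `|Δ^k E[A_n^r]| ≤ C (log n / √n)^k E[A_n^r]`
and `|Δ^k m_r(n)| ≤ C (log n / √n)^k m_r(n)` for all `n ≥ 2`, where `m_r(n)` is the `r`-th moment of
`A_n / E[A_n]`.
(2) For every `k` there is a constant `C` such that for all `n ≥ 2`, every real `a ≥ n` and every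
function `g` of class `C^k` with `|g^(j)| ≤ 1` for `0 ≤ j ≤ k`: the function
`m ↦ E[g (A_m / a)]` satisfies `|Δ^k E[g (A_· / a)](n)| ≤ C (log n / √n)^k`. -/
theorem result :
    (∀ r k : ℕ, ∃ C : ℝ, ∀ n : ℕ, 2 ≤ n →
      |diff k (E (fun x => x ^ r)) n| ≤ C * ((Real.log n / Real.sqrt n) ^ k * E (fun x => x ^ r) n) ∧
      |diff k (m r) n| ≤ C * ((Real.log n / Real.sqrt n) ^ k * m r n)) ∧
    ∀ k : ℕ, ∃ C : ℝ, ∀ n : ℕ, 2 ≤ n → ∀ (g : ℝ → ℝ) (a : ℝ), ContDiff ℝ k g →
      (∀ j ≤ k, ∀ y, |iteratedDeriv j g y| ≤ 1) → (n : ℝ) ≤ a →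
      |diff k (E (fun x => g (x / a))) n| ≤ C * (Real.log n / Real.sqrt n) ^ k := by
  simp only [diff_eq]
  refine ⟨fun r k => ?_, fun k => Pool.Agent.T6.H92.TG.fun_all k⟩
  obtain ⟨C1, h1⟩ := (Pool.Agent.T6.H92.TG.MR_Smooth r).2 k
  obtain ⟨C2, h2⟩ := (Pool.Agent.T6.H92.TG.mr_Smooth r).2 k
  refine ⟨|C1| + |C2|, fun n hn => ⟨(h1 n hn).trans ?_, (h2 n hn).trans ?_⟩⟩
  · have hp := Pool.Agent.T6.H92.TG.ep_pos hn
    have hm := (Pool.Agent.T6.H92.TG.MR_Smooth r).1 n hn
    apply mul_le_mul_of_nonneg_right _ (by positivity)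
    have := le_abs_self C1
    have := abs_nonneg C2
    linarith
  · have hp := Pool.Agent.T6.H92.TG.ep_pos hn
    have hm := (Pool.Agent.T6.H92.TG.mr_Smooth r).1 n hn
    apply mul_le_mul_of_nonneg_right _ (by positivity)
    have := le_abs_self C2
    have := abs_nonneg C1
    linarith

end Pool.Agent.Results.MP_f6626d_co.AllOrderSmoothness
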