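import Pool.Agent.T6.H92.SP.Last

/-!
Area law of square-lattice self-avoiding polygons: up to an exponentially small error in total
variation the law of the area `A_n` of the uniform polygon of perimeter `2 n` is a mixture of
shifted symmetric binomial laws with `⌊n / 10^6⌋` steps, also conditionally on `n / 100` of the
vertices.  Consequences: Gaussian decay of the characteristic function up to `|θ| = π`,
exponentially fast equidistribution of `A_n` modulo `q`, and smoothness of all orders.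
-/

set_option autoImplicit false

namespace Pool.Agent.Results.MP_f6626d_co.AreaBinomialFactor

open scoped Classical

/-- a closed nearest-neighbour loop on `ℤ²` with `m` steps, rooted at the origin and oriented,
that visits no vertex twice -/
def IsLoop (m : ℕ) (f : ZMod m → ℤ × ℤ) : Prop :=
  f 0 = 0 ∧ Function.Injective f ∧
    ∀ i : ZMod m, |(f (i + 1)).1 - (f i).1| + |(f (i + 1)).2 - (f i).2| = 1

/-- the edge from `f k` to `f (k+1)` is horizontal, joins the columns `x = a` and `x = a + 1`, and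
has height larger than `b`: it lies above the unit cell `[a, a+1] × [b, b+1]` -/
def Above (m : ℕ) (f : ZMod m → ℤ × ℤ) (a b : ℤ) (k : ZMod m) : Prop :=
  (((f k).1 = a ∧ (f (k + 1)).1 = a + 1) ∨ ((f k).1 = a + 1 ∧ (f (k + 1)).1 = a)) ∧ b < (f k).2

/-- the unit cell `[a, a+1] × [b, b+1]` is enclosed by the loop: the vertical ray from the cell
upwards crosses an odd number of edges -/
def Encl (m : ℕ) (f : ZMod m → ℤ × ℤ) (c : ℤ × ℤ) : Prop :=
  Odd (Nat.card {k : ZMod m // Above m f c.1 c.2 k})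

/-- the area: the number of unit cells enclosed by the loop -/
noncomputable def area (m : ℕ) (f : ZMod m → ℤ × ℤ) : ℕ := Nat.card {c : ℤ × ℤ // Encl m f c}

/-- expectation under the uniform law on the (rooted, oriented) self-avoiding polygons of
perimeter `2 n` -/
noncomputable def E (n : ℕ) (F : (ZMod (2 * n) → ℤ × ℤ) → ℝ) : ℝ :=
  (∑ᶠ f ∈ {f : ZMod (2 * n) → ℤ × ℤ | IsLoop (2 * n) f}, F f) /
    ({f : ZMod (2 * n) → ℤ × ℤ | IsLoop (2 * n) f}.ncard : ℝ)

/-- `F` is a function of the polygon with values in `[-1, 1]` for which there is a rule `J`, which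
chooses at most `n / 100` of the vertices of each polygon, such that neither `F` nor `J` changes if
one vertex that is not in `J` is moved.  Examples: the constants and all functions of the numbers of
horizontal and vertical edges (`J` empty), all functions of the polygon which depend only on
`n / 100` fixed vertices (`J` constant), and products of these. -/
def Admissible (n : ℕ) (F : (ZMod (2 * n) → ℤ × ℤ) → ℝ) : Prop :=
  ∃ J : (ZMod (2 * n) → ℤ × ℤ) → Finset (ZMod (2 * n)),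
    (∀ f, IsLoop (2 * n) f → |F f| ≤ 1 ∧ 100 * (J f).card ≤ n) ∧
    ∀ f f' : ZMod (2 * n) → ℤ × ℤ, IsLoop (2 * n) f → IsLoop (2 * n) f' →
      (∃ k ∉ J f, ∀ j, j ≠ k → f j = f' j) → F f = F f' ∧ J f = J f'

/-- the forward difference -/
def diff (g : ℤ → ℝ) : ℤ → ℝ := fun x => g (x + 1) - g x

/-- **Theorem.** Let `A_n` be the area of the uniform self-avoiding polygon of perimeter `2 n` on
`ℤ²`. There are `C, c > 0` such that for all `n ≥ 2` and all admissible `F`, with
`m = ⌊n / 10^6⌋`: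
(1) if `F ≥ 0` there is a measure `ν ≥ 0` of total mass at most `1` with finite support on `ℤ` such
that `|E[F g(A_n)] - ∑_a ν(a) ∑_{j ≤ m} binom(m, j) 2^(-m) g(a + j)| ≤ C exp (- c n)` for all
`g : ℤ → [-1, 1]`;
(2) `|E[F cos(θ A_n + φ)]| ≤ C exp (- c n θ²)` for all `|θ| ≤ π` and all `φ`;
(3) `|E[F 1(A_n ≡ r mod q)] - E[F] / q| ≤ C exp (- c n / q²)` for all `q ≥ 1` and all `r`;
(4) `|E[F (Δ^k g)(A_n)]| ≤ C (C k / n)^(k/2)` for all `k ≥ 0` and all `g : ℤ → [-1, 1]`;
(5) `|Δ^k (a ↦ E[F 1(A_n = a)])| ≤ C (C (k + 1) / n)^((k+1)/2)` for all `k ≥ 0`. -/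
theorem result : ∃ C c : ℝ, 0 < C ∧ 0 < c ∧ ∀ n : ℕ, 2 ≤ n →
    ∀ F : (ZMod (2 * n) → ℤ × ℤ) → ℝ, Admissible n F →
    ((∀ f, IsLoop (2 * n) f → 0 ≤ F f) → ∃ ν : ℤ →₀ ℝ, (∀ a, 0 ≤ ν a) ∧
      ν.sum (fun _ p => p) ≤ 1 ∧ ∀ g : ℤ → ℝ, (∀ x, |g x| ≤ 1) →
        |E n (fun f => F f * g (area (2 * n) f : ℤ)) -
          ν.sum (fun a p => p * ∑ j ∈ Finset.range (n / 1000000 + 1),
            ((n / 1000000).choose j : ℝ) / 2 ^ (n / 1000000) * g (a + j))| ≤
          C * Real.exp (-(c * n))) ∧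
    (∀ θ φ : ℝ, |θ| ≤ Real.pi →
      |E n (fun f => F f * Real.cos (θ * (area (2 * n) f : ℝ) + φ))| ≤
        C * Real.exp (-(c * n * θ ^ 2))) ∧
    (∀ q : ℕ, 1 ≤ q → ∀ r : ℕ,
      |E n (fun f => F f * if area (2 * n) f ≡ r [MOD q] then 1 else 0) - E n F / q| ≤
        C * Real.exp (-(c * n / (q : ℝ) ^ 2))) ∧
    (∀ (k : ℕ) (g : ℤ → ℝ), (∀ x, |g x| ≤ 1) →
      |E n (fun f => F f * diff^[k] g (area (2 * n) f : ℤ))| ≤ C * Real.sqrt (C * k / n) ^ k) ∧
    ∀ (k : ℕ) (a : ℤ),
      |diff^[k] (fun a : ℤ => E n (fun f => F f * if (area (2 * n) f : ℤ) = a then 1 else 0)) a| ≤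
        C * Real.sqrt (C * (k + 1) / n) ^ (k + 1) := by
  obtain ⟨C, c, hC, hc, h⟩ := Pool.Agent.T6.H92.SP.all
  refine ⟨C, c, hC, hc, fun n hn F hF => ?_⟩
  obtain ⟨J, hJ1, hJ2⟩ := hF
  exact h n hn F J hJ1 hJ2

end Pool.Agent.Results.MP_f6626d_co.AreaBinomialFactor
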