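import Pool.Agent.T6.H44.PG.Wul2

/-!
The area of the planar self-avoiding polygons: the exact exponential rate of the upper tail of the
area, by the areas of the Wulff shapes of the self-avoiding walk and as a variational problem over
closed polygons with the rate function of the end point of the self-avoiding walk.
-/

set_option autoImplicit false

namespace Pool.Agent.Results.MP_f6626d_co.AreaRate

open Filter Topology MeasureTheory

/-- a closed nearest-neighbour loop on `ℤ²` with `m` steps, rooted at the origin and oriented,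
that visits no vertex twice -/
def IsLoop (m : ℕ) (f : ZMod m → ℤ × ℤ) : Prop :=
  f 0 = 0 ∧ Function.Injective f ∧
    ∀ i : ZMod m, |(f (i + 1)).1 - (f i).1| + |(f (i + 1)).2 - (f i).2| = 1

/-- the edge from `f k` to `f (k+1)` is horizontal, joins the columns `x = a` and `x = a + 1`, and
has height larger than `b`: it lies above the unit cell `[a, a+1] × [b, b+1]` -/
def Above (m : ℕ) (f : ZMod m → ℤ × ℤ) (a b : ℤ) (k : ZMod m) : Prop :=
  (((f k).1 = a ∧ (f (k + 1)).1 = a + 1) ∨ ((f k).1 = a + 1 ∧ (f (k + 1)).1 = a)) ∧ b < (f k).2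

/-- the unit cell `[a, a+1] × [b, b+1]` is enclosed by the loop: the vertical ray from the cell
upwards crosses an odd number of edges -/
def Encl (m : ℕ) (f : ZMod m → ℤ × ℤ) (c : ℤ × ℤ) : Prop :=
  Odd (Nat.card {k : ZMod m // Above m f c.1 c.2 k})

/-- the area: the number of unit cells enclosed by the loop -/
noncomputable def area (m : ℕ) (f : ZMod m → ℤ × ℤ) : ℕ := Nat.card {c : ℤ × ℤ // Encl m f c}

/-- `Prob(A_n ≥ r)`: the proportion of the self-avoiding polygons of perimeter `2 n` with area at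
least `r` -/
noncomputable def large (n : ℕ) (r : ℝ) : ℝ :=
  ({f : ZMod (2 * n) → ℤ × ℤ | IsLoop (2 * n) f ∧ r ≤ area (2 * n) f}.ncard : ℝ) /
    ({f : ZMod (2 * n) → ℤ × ℤ | IsLoop (2 * n) f}.ncard : ℝ)

/-- `ω` is an `n`-step self-avoiding walk on `ℤ²` started at the origin. -/
def IsSAW (n : ℕ) (ω : Fin (n + 1) → ℤ × ℤ) : Prop :=
  ω 0 = (0, 0) ∧
  (∀ i : Fin n, |(ω i.succ).1 - (ω i.castSucc).1| + |(ω i.succ).2 - (ω i.castSucc).2| = 1) ∧
  Function.Injective ω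

/-- `c_n`: the number of `n`-step self-avoiding walks from the origin -/
noncomputable def c (n : ℕ) : ℕ := Nat.card {ω : Fin (n + 1) → ℤ × ℤ // IsSAW n ω}

/-- `c_n(x)`: the number of `n`-step self-avoiding walks from the origin to `x` -/
noncomputable def cx (n : ℕ) (x : ℤ × ℤ) : ℕ :=
  Nat.card {ω : Fin (n + 1) → ℤ × ℤ // IsSAW n ω ∧ ω (Fin.last n) = x}

/-- `P_n(ω(n) = x)`, the probability that the uniform `n`-step self-avoiding walk ends at `x` -/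
noncomputable def P (n : ℕ) (x : ℤ × ℤ) : ℝ := (cx n x : ℝ) / (c n : ℝ)

/-- the moment generating function of the end point of the uniform `n`-step self-avoiding walk -/
noncomputable def mgf (n : ℕ) (h : ℝ × ℝ) : ℝ :=
  ∑ x ∈ Finset.Icc (-(n : ℤ)) n ×ˢ Finset.Icc (-(n : ℤ)) n,
    P n x * Real.exp (h.1 * x.1 + h.2 * x.2)

/-- the rate of the area for the function `Λ`: with `A(E)` the area of the set `Λ ≤ E`, the
supremum of `2 (√(u A(E)) - E)` over `E > 0` -/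
noncomputable def Phi (Λ : ℝ × ℝ → ℝ) (u : ℝ) : ℝ :=
  sSup ((fun E : ℝ => 2 * (√(u * (volume {h : ℝ × ℝ | Λ h ≤ E}).toReal) - E)) '' Set.Ioi 0)

/-- twice the signed area (positive if clockwise) of the closed polygon with the successive edges
`L`: the sum of `(v_j)₁ (v_i)₂ - (v_j)₂ (v_i)₁` over `i < j` -/
def area2 : List (ℝ × ℝ) → ℝ
  | [] => 0
  | v :: L => L.sum.1 * v.2 - L.sum.2 * v.1 + area2 L

/-- a closed polygon of signed area at least `u` covered in time `2` with `ℓ¹` speed at most `1`: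
the entry `(t, v)` of the list is an edge `v` covered in time `t` -/
def Tour (u : ℝ) (E : List (ℝ × (ℝ × ℝ))) : Prop :=
  (∀ e ∈ E, 0 < e.1 ∧ |e.2.1| + |e.2.2| ≤ e.1) ∧ (E.map Prod.fst).sum = 2 ∧
    (E.map Prod.snd).sum = 0 ∧ 2 * u ≤ area2 (E.map Prod.snd)

/-- the cost: the sum of `t I(v / t)` -/
noncomputable def cost (I : ℝ × ℝ → ℝ) (E : List (ℝ × (ℝ × ℝ))) : ℝ :=
  (E.map (fun e => e.1 * I (e.2.1 / e.1, e.2.2 / e.1))).sum

theorem c_eq (n : ℕ) : c n = TH795.EP.c n := TH795.EP2.card_walks n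

theorem cx_eq (n : ℕ) (x : ℤ × ℤ) : cx n x = TH795.EP.a n x.1 x.2 := TH795.EP2.card_walks_to n x

theorem area2_eq (L : List (ℝ × ℝ)) : area2 L = Pool.Agent.T6.H44.AR.S2 L := by
  induction L with
  | nil => rfl
  | cons v L ih =>
    rw [area2, ih]
    rfl

theorem tour_iff (u : ℝ) (E : List (ℝ × (ℝ × ℝ))) : Tour u E ↔ Pool.Agent.T6.H44.AR.Adm u E := by
  unfold Tour Pool.Agent.T6.H44.AR.Adm
  rw [area2_eq]

/-- **Theorem.** Let `μ = lim c_n^(1/n)`.  There are functions `Λ` and `I` on `ℝ²` with: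
(1) `Λ(h) = lim (1/n) log E_n[exp(h · ω(n))]` for the end point `ω(n)` of the uniform `n`-step
self-avoiding walk; the sets `Λ ≤ E`, `E > 0`, are convex and compact with `0` in the interior;
(2) `I(v) = sup_h (h · v - Λ(h))` for `|v₁| + |v₂| ≤ 1` is the rate function of the end point: it is
convex, `|log P_n(ω(n) = x) + n I(x / n)| ≤ C (log n)²` for all `n ≥ 2` and all `x ≠ 0` which an
`n`-step walk can reach, and `I (0) = 0`, `0 < I(v) ≤ log μ` for the other `v`;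
(3) for the area `A_n` of the uniform self-avoiding polygon of perimeter `2 n` and `0 < u < 1/4`:
`(1/n) log Prob(A_n ≥ u n²)` converges to `- Φ(u)` with
`Φ(u) = sup_{E > 0} 2 (√(u |{Λ ≤ E}|) - E)`, and `Φ(u)` is also the infimum of the cost
`∑ t I(v / t)` over all closed polygons of area at least `u` covered in time `2`; moreover
`Φ(u) ≥ 2 I(√u, √u)`;
(4) `Φ` is positive, continuous and strictly increasing on `(0, 1/4)`, and `Φ(r²)` is a convex
function of `r`. -/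
theorem result : ∃ (μ : ℝ) (Λ I : ℝ × ℝ → ℝ) (C : ℝ),
    Tendsto (fun n : ℕ => (c n : ℝ) ^ (1 / (n : ℝ))) atTop (𝓝 μ) ∧
    ((∀ h : ℝ × ℝ, Tendsto (fun n : ℕ => Real.log (mgf n h) / n) atTop (𝓝 (Λ h))) ∧
      ∀ E : ℝ, 0 < E → Convex ℝ {h | Λ h ≤ E} ∧ IsCompact {h | Λ h ≤ E} ∧
        (0 : ℝ × ℝ) ∈ interior {h | Λ h ≤ E}) ∧
    ((∀ v : ℝ × ℝ, |v.1| + |v.2| ≤ 1 →
        IsLUB (Set.range fun h : ℝ × ℝ => h.1 * v.1 + h.2 * v.2 - Λ h) (I v)) ∧
      ConvexOn ℝ {v : ℝ × ℝ | |v.1| + |v.2| ≤ 1} I ∧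
      (∀ n : ℕ, 2 ≤ n → ∀ x : ℤ × ℤ, x ≠ 0 → (x.1 + x.2 - n) % 2 = 0 → |x.1| + |x.2| ≤ n →
        |Real.log (P n x) + n * I ((x.1 : ℝ) / n, (x.2 : ℝ) / n)| ≤ C * Real.log n ^ 2) ∧
      I 0 = 0 ∧ ∀ v : ℝ × ℝ, v ≠ 0 → |v.1| + |v.2| ≤ 1 → 0 < I v ∧ I v ≤ Real.log μ) ∧
    (∀ u : ℝ, 0 < u → u < 1 / 4 →
      Tendsto (fun n : ℕ => Real.log (large n (u * (n : ℝ) ^ 2)) / n) atTop (𝓝 (-Phi Λ u)) ∧
      BddAbove ((fun E : ℝ => 2 * (√(u * (volume {h : ℝ × ℝ | Λ h ≤ E}).toReal) - E)) ''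
        Set.Ioi 0) ∧
      IsGLB (cost I '' {E | Tour u E}) (Phi Λ u) ∧
      2 * I (√u, √u) ≤ Phi Λ u ∧ 0 < Phi Λ u) ∧
    ContinuousOn (Phi Λ) (Set.Ioo 0 (1 / 4)) ∧ StrictMonoOn (Phi Λ) (Set.Ioo 0 (1 / 4)) ∧
    ConvexOn ℝ (Set.Ioo 0 (1 / 2)) fun r : ℝ => Phi Λ (r ^ 2) := by
  obtain ⟨C7, hC7, h7⟩ := Pool.Agent.Y981.L2.ldp_words
  refine ⟨H981.mu, Pool.Agent.Y981.L2.Lam, Pool.Agent.Y981.L2.Rate, C7, ?_, ⟨?_, ?_⟩,
    ⟨?_, Pool.Agent.Y981.L2.convex_rate, ?_, Pool.Agent.Y981.L2.R_zero, ?_⟩, ?_,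
    Pool.Agent.T6.H44.PG.Wf_cont, ?_, Pool.Agent.T6.H44.PG.Wf_convex⟩
  · refine H981.tendsto_root.congr ?_
    intro n
    rw [c_eq, TH795.EP.c_eq]
  · intro h
    refine (Pool.Agent.T6.H44.PG.Lam_conv h).congr ?_
    intro n
    unfold mgf P
    rw [Pool.Agent.Y981.L2.Z_eq, Finset.sum_div]
    congr 2
    apply Finset.sum_congr rfl
    intro x _
    rw [c_eq, cx_eq]
    ring
  · intro E hE
    obtain ⟨g1, g2, g3, -⟩ := Pool.Agent.T6.H44.AR.kep _ Pool.Agent.T6.H44.PG.rt_rate E hE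
    rw [Pool.Agent.T6.H44.PG.ke_eq]
    exact ⟨g1, g2, g3⟩
  · intro v hv
    constructor
    · rintro _ ⟨h, rfl⟩
      exact Pool.Agent.Y981.L2.le_rate hv h
    · intro b hb
      exact ciSup_le fun h => hb ⟨h, rfl⟩
  · intro n hn x hx hpar hle
    have h := h7 n hn x.1 x.2 hx hpar hle
    unfold P
    rw [c_eq, cx_eq]
    exact h
  · intro v hv hv1
    exact ⟨Pool.Agent.T6.H44.PG.rate_pos hv1 hv, Pool.Agent.Y981.L2.rate_le hv1⟩
  · intro u hu hu4
    have e : {E | Tour u E} = {E | Pool.Agent.T6.H44.AR.Adm u E} := by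
      simp only [tour_iff]
    have e2 : Phi Pool.Agent.Y981.L2.Lam u = Pool.Agent.T6.H44.PG.Phi u :=
      (Pool.Agent.T6.H44.PG.wulff hu hu4).2.symm
    refine ⟨?_, (Pool.Agent.T6.H44.PG.wulff hu hu4).1, ?_, Pool.Agent.T6.H44.PG.Wf_pos hu hu4⟩
    · rw [e2]
      exact Pool.Agent.T6.H44.PG.rate_area hu hu4
    · rw [e2, e]
      apply isGLB_csInf
      · exact ⟨_, _, Pool.Agent.T6.H44.PG.adm_square hu4.le, rfl⟩
      · refine ⟨0, ?_⟩
        rintro _ ⟨E, hE, rfl⟩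
        exact Pool.Agent.T6.H44.PG.cost_nonneg hE
  · rintro u ⟨hu, -⟩ v ⟨-, hv⟩ huv
    exact (Pool.Agent.T6.H44.PG.Wf_mono hu huv hv).2

end Pool.Agent.Results.MP_f6626d_co.AreaRate
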