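import Pool.Agent.T6.H70.AreaUp2

/-!
Upper bounds for the area of the planar self-avoiding polygons.  The area of the uniform polygon
with `2 n` steps is, with probability `1 - O(exp (- n^(4/5)))`, smaller than
`n ^ (2 - c / log log n)`; all its moments satisfy the corresponding bound; and the probability
that the area is at least `u n^2` is exponentially small in `n`, with an explicit rate in `u`.
-/

set_option autoImplicit false

namespace Pool.Agent.Results.MP_f6626d_co.AreaUpper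

/-- a closed nearest-neighbour loop on `ℤ²` with `m` steps, rooted at the origin and oriented,
that visits no vertex twice -/
def IsLoop (m : ℕ) (f : ZMod m → ℤ × ℤ) : Prop :=
  f 0 = 0 ∧ Function.Injective f ∧
    ∀ i : ZMod m, |(f (i + 1)).1 - (f i).1| + |(f (i + 1)).2 - (f i).2| = 1

/-- the edge from `f k` to `f (k+1)` is horizontal, joins the columns `x = a` and `x = a + 1`, and
has height larger than `b`: it lies above the unit cell `[a, a+1] × [b, b+1]` -/
def Above (m : ℕ) (f : ZMod m → ℤ × ℤ) (a b : ℤ) (k : ZMod m) : Prop :=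
  (((f k).1 = a ∧ (f (k + 1)).1 = a + 1) ∨ ((f k).1 = a + 1 ∧ (f (k + 1)).1 = a)) ∧ b < (f k).2

/-- the unit cell `[a, a+1] × [b, b+1]` is enclosed by the loop: the vertical ray from the cell
upwards crosses an odd number of edges -/
def Encl (m : ℕ) (f : ZMod m → ℤ × ℤ) (c : ℤ × ℤ) : Prop :=
  Odd (Nat.card {k : ZMod m // Above m f c.1 c.2 k})

/-- the area: the number of unit cells enclosed by the loop -/
noncomputable def area (m : ℕ) (f : ZMod m → ℤ × ℤ) : ℕ := Nat.card {c : ℤ × ℤ // Encl m f c}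

/-- `Prob(A_n ≥ r)`: the proportion of the self-avoiding polygons of perimeter `2 n` with area at
least `r` -/
noncomputable def large (n : ℕ) (r : ℝ) : ℝ :=
  ({f : ZMod (2 * n) → ℤ × ℤ | IsLoop (2 * n) f ∧ r ≤ area (2 * n) f}.ncard : ℝ) /
    ({f : ZMod (2 * n) → ℤ × ℤ | IsLoop (2 * n) f}.ncard : ℝ)

/-- `E[A_n ^ p]`: the `p`-th moment of the area of the uniform self-avoiding polygon of perimeter
`2 n` -/
noncomputable def moment (p n : ℕ) : ℝ :=
  (∑ᶠ f ∈ {f : ZMod (2 * n) → ℤ × ℤ | IsLoop (2 * n) f}, (area (2 * n) f : ℝ) ^ p) /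
    ({f : ZMod (2 * n) → ℤ × ℤ | IsLoop (2 * n) f}.ncard : ℝ)

/-- **Theorem.** There are constants `c, C > 0` such that the area `A_n` of the uniform
self-avoiding polygon of perimeter `2 n` satisfies:
(1) `Prob(A_n ≥ u n²) ≤ C exp(C n^{3/4} - exp(-C (1+log(1/u)) (1+log(1+log(1/u)))) n)` for all
`0 < u ≤ 1` and `n ≥ 2`;
(2) `Prob(A_n ≥ n^{2 - c/log log n}) ≤ C exp(-n^{4/5})` for all `n ≥ 16`;
(3) for every `p` there is `D` with `E[A_n^p] ≤ D (n^{2 - c/log log n})^p` for all `n ≥ 16`. -/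
theorem result : ∃ c C : ℝ, 0 < c ∧ 0 < C ∧
    (∀ u : ℝ, 0 < u → u ≤ 1 → ∀ n : ℕ, 2 ≤ n →
      large n (u * (n : ℝ) ^ 2) ≤
        C * Real.exp (C * (n : ℝ) ^ (3 / 4 : ℝ) - Real.exp (-(C * ((1 + Real.log (1 / u)) *
          (1 + Real.log (1 + Real.log (1 / u)))))) * n)) ∧
    (∀ n : ℕ, 16 ≤ n →
      large n ((n : ℝ) ^ (2 - c / Real.log (Real.log n))) ≤
        C * Real.exp (-(n : ℝ) ^ (4 / 5 : ℝ))) ∧
    (∀ p : ℕ, ∃ D : ℝ, 0 < D ∧ ∀ n : ℕ, 16 ≤ n →
      moment p n ≤ D * ((n : ℝ) ^ (2 - c / Real.log (Real.log n))) ^ p) := by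
  obtain ⟨C1, hC1, h1⟩ := Pool.Agent.T6.H70.AreaUp.area_ld
  obtain ⟨c2, C2, hc2, hC2, h2⟩ := Pool.Agent.T6.H70.AreaUp.area_typ
  obtain ⟨c3, hc3, h3⟩ := Pool.Agent.T6.H70.AreaUp.area_mom
  refine ⟨min c2 c3, max C1 C2, lt_min hc2 hc3, lt_max_of_lt_left hC1, ?_, ?_, ?_⟩
  · intro u hu hu1 n hn
    exact h1 _ (le_max_left _ _) u hu hu1 n hn
  · intro n hn
    refine le_trans (Pool.Agent.Y981.L2.par_anti (by omega) ?_) (h2 _ (le_max_right _ _) n hn)
    have hll := Pool.Agent.T6.H70.AreaUp.ll_ge hn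
    have hn1 : (1 : ℝ) ≤ n := by exact_mod_cast (by omega : 1 ≤ n)
    refine Real.rpow_le_rpow_of_exponent_le hn1 ?_
    have := div_le_div_of_nonneg_right (min_le_left c2 c3)
      (show 0 ≤ Real.log (Real.log (n : ℝ)) by linarith)
    linarith
  · intro p
    obtain ⟨D, hD, h⟩ := h3 (min c2 c3) (min_le_right _ _) (lt_min hc2 hc3) p
    exact ⟨D, hD, h⟩

end Pool.Agent.Results.MP_f6626d_co.AreaUpper
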